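import Mathlib
import Pool.Agent.Lib.MP_021685_ag.Comb

/-!
# Families of transitive sets with involution, and a Sylow subgroup
-/

set_option autoImplicit false

namespace Pool.Agent.Lib.MP_021685_ag.PF

open MulAction Pool.Agent.Lib.MP_021685_ag

section modr

variable {G : Type*} [Group G] [Finite G] {ι : Type*} [Fintype ι] [DecidableEq ι]
  {X : ι → Type*} [∀ i, Fintype (X i)] [∀ i, DecidableEq (X i)] [∀ i, MulAction G (X i)]
  {bar : ∀ i, X i → X i}

/-- Relations modulo `r` do not exist. -/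
theorem no_relation_mod (hbar : ∀ i x, bar i (bar i x) = x)
    (hcomm : ∀ i (g : G) (x : X i), g • bar i x = bar i (g • x))
    (p : Finset ι) {r : ℕ} [Fact r.Prime]
    (htrans : ∀ i ∈ p, IsPretransitive G (X i)) (k : ι → ℕ)
    (hX : ∀ i ∈ p, Nat.card (X i) = 2 * r ^ k i)
    (P : Sylow r G) (T : ∀ i, Finset (X i)) (hT : ∀ i, IsHalf (bar i) (T i))
    (hTs : r ≠ 2 → ∀ i ∈ p, ∀ q : P, ∀ x ∈ T i, q • x ∈ T i)
    (E : ∀ i, X i → ZMod r) (hE : ∀ i x, E i (bar i x) = - E i x)
    (hind : ∀ a : ι → ZMod r, (∀ g : G, ∑ i ∈ p, a i * ∑ x ∈ T i, E i (g • x) = 0) →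
      ∀ i ∈ p, a i = 0)
    (c : ∀ i, X i → ZMod r) (hc : ∀ i x, c i (bar i x) = - c i x) (hc0 : ∀ i, i ∉ p → c i = 0)
    (hrel : ∀ g : G, ∑ i ∈ p, ∑ x ∈ T i, c i x * E i (g • x) = 0) : c = 0 := by
  classical
  have hr : r.Prime := Fact.out
  have hfix : ∀ i x, bar i x ≠ x := by
    intro i x h
    have := hT i x
    rw [h] at this
    tauto
  let N : Submodule (ZMod r) (∀ i, X i → ZMod r) :=
    { carrier := {c | (∀ i x, c i (bar i x) = - c i x) ∧ (∀ i, i ∉ p → c i = 0) ∧
        ∀ g : G, ∑ i ∈ p, ∑ x ∈ T i, c i x * E i (g • x) = 0}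
      zero_mem' := ⟨by intro i x; simp, by intro i _; rfl, by intro q; simp⟩
      add_mem' := by
        intro a b ha hb
        refine ⟨fun i x => ?_, fun i hi => ?_, fun q => ?_⟩
        · rw [Pi.add_apply, Pi.add_apply, Pi.add_apply, ha.1, hb.1]; ring
        · rw [Pi.add_apply, ha.2.1 i hi, hb.2.1 i hi, add_zero]
        · simp only [Pi.add_apply, add_mul, Finset.sum_add_distrib]
          rw [ha.2.2 q, hb.2.2 q, add_zero]
      smul_mem' := by
        intro t a ha
        refine ⟨fun i x => ?_, fun i hi => ?_, fun q => ?_⟩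
        · rw [Pi.smul_apply, Pi.smul_apply, Pi.smul_apply, ha.1, smul_neg]
        · rw [Pi.smul_apply, ha.2.1 i hi, smul_zero]
        · simp only [Pi.smul_apply, smul_eq_mul, mul_assoc, ← Finset.mul_sum]
          rw [ha.2.2 q, mul_zero] }
  by_contra hne
  have hcN : c ∈ N := ⟨hc, hc0, hrel⟩
  have hnt : Nontrivial N := ⟨⟨⟨c, hcN⟩, 0, fun h' => hne (congrArg Subtype.val h')⟩⟩
  have hdvd : r ∣ Nat.card N := by
    rw [Module.natCard_eq_pow_finrank (K := ZMod r), Nat.card_zmod]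
    exact dvd_pow_self r (Module.finrank_pos).ne'
  -- the sum over a half system of a product of two odd functions
  have hsum : ∀ (i : ι) (a : X i → ZMod r), (∀ x, a (bar i x) = - a x) → ∀ (g : G)
      {Φ Ψ : Finset (X i)}, IsHalf (bar i) Φ → IsHalf (bar i) Ψ →
      ∑ x ∈ Φ, a x * E i (g • x) = ∑ x ∈ Ψ, a x * E i (g • x) := by
    intro i a ha g Φ Ψ hΦ hΨ
    apply sum_half_even (hbar i) _ _ hΦ hΨ
    intro x
    rw [hcomm, hE, ha]; ring
  let act : MulAction P N :=
    { smul := fun q c => ⟨fun i x => c.1 i (q⁻¹ • x), by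
        intro i x
        change c.1 i (((q⁻¹ : P) : G) • bar i x) = - c.1 i (((q⁻¹ : P) : G) • x)
        rw [hcomm, c.2.1], by
        intro i hi
        funext x
        have := congrFun (c.2.2.1 i hi) (q⁻¹ • x)
        exact this, by
        intro q'
        have h1 := c.2.2.2 (q' * (q : G))
        rw [← h1]
        refine Finset.sum_congr rfl fun i _ => ?_
        have h2 : IsHalf (bar i) ((T i).image (fun x => q⁻¹ • x)) := by
          intro x
          have h3 : ∀ y, y ∈ (T i).image (fun x => q⁻¹ • x) ↔ q • y ∈ T i := by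
            intro y
            rw [Finset.mem_image]
            constructor
            · rintro ⟨z, hz, rfl⟩
              rwa [smul_inv_smul]
            · intro h
              exact ⟨q • y, h, inv_smul_smul q y⟩
          rw [h3, h3, hT i (q • x)]
          change bar i ((q : G) • x) ∉ T i ↔ (q : G) • bar i x ∉ T i
          rw [hcomm]
        rw [hsum i (c.1 i) (c.2.1 i) (q' * q) (hT i) h2, Finset.sum_image (by
          intro x _ y _ hxy
          exact (MulAction.injective (q⁻¹ : P)) hxy)]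
        refine Finset.sum_congr rfl fun x _ => ?_
        have h4 : (q' * (q : G)) • (q⁻¹ • x) = q' • x := by
          change (q' * (q : G)) • ((q : G)⁻¹ • x) = q' • x
          rw [mul_smul, smul_inv_smul]
        rw [h4]⟩
      one_smul := by
        intro c
        apply Subtype.ext
        funext i x
        change c.1 i ((1 : P)⁻¹ • x) = c.1 i x
        rw [inv_one, one_smul]
      mul_smul := by
        intro q q' c
        apply Subtype.ext
        funext i x
        change c.1 i ((q * q')⁻¹ • x) = c.1 i (q'⁻¹ • q⁻¹ • x)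
        rw [mul_inv_rev, mul_smul] }
  have hfix0 : (0 : N) ∈ fixedPoints P N := by
    intro q
    apply Subtype.ext
    rfl
  obtain ⟨b, hb, hb0⟩ := P.2.exists_fixed_point_of_prime_dvd_card_of_fixed_point N hdvd hfix0
  have hconst : ∀ (q : P) (i : ι) (x : X i), b.1 i (q • x) = b.1 i x := by
    intro q i x
    have h1 : (q⁻¹ • b : N) = b := hb q⁻¹
    have h2 := congrFun (congrFun (congrArg Subtype.val h1) i) x
    change b.1 i ((q⁻¹)⁻¹ • x) = b.1 i x at h2
    rwa [inv_inv] at h2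
  -- the values on the half systems
  have hval : ∀ i ∈ p, ∃ κ, ∀ x ∈ T i, b.1 i x = κ := by
    intro i hi
    have := htrans i hi
    have hcard : 0 < Nat.card (X i) := by
      rw [hX i hi]
      exact Nat.mul_pos two_pos (Nat.pow_pos hr.pos)
    obtain ⟨x₀⟩ : Nonempty (X i) := (Nat.card_pos_iff.1 hcard).1
    by_cases hr2 : r = 2
    · refine ⟨b.1 i x₀, fun y _ => ?_⟩
      obtain ⟨σ, hσ | hσ⟩ := sylow_transitive_pairs (hX i hi) (hbar i) (hfix i) (hcomm i) P x₀ y
      · rw [← hσ, hconst]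
      · rw [← hconst σ i x₀, hσ, b.2.1]
        subst hr2
        exact (ZMod.neg_eq_self_mod_two _).symm
    · obtain ⟨x₁, hx₁⟩ : ∃ x₁, x₁ ∈ T i := by
        by_cases h : x₀ ∈ T i
        · exact ⟨x₀, h⟩
        · refine ⟨bar i x₀, ?_⟩
          by_contra h'
          exact h ((hT i x₀).2 h')
      refine ⟨b.1 i x₁, fun y hy => ?_⟩
      obtain ⟨σ, hσ | hσ⟩ := sylow_transitive_pairs (hX i hi) (hbar i) (hfix i) (hcomm i) P x₁ y
      · rw [← hσ, hconst]
      · exfalso
        have h1 := hTs hr2 i hi σ x₁ hx₁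
        rw [hσ] at h1
        exact ((hT i y).1 hy) h1
  choose! κ hκ using hval
  have hκ0 : ∀ i ∈ p, κ i = 0 := by
    apply hind
    intro g
    rw [← b.2.2.2 g]
    refine Finset.sum_congr rfl fun i hi => ?_
    rw [Finset.mul_sum]
    refine Finset.sum_congr rfl fun x hx => ?_
    rw [hκ i hi x hx]
  apply hb0
  apply Subtype.ext
  funext i x
  change (0 : ZMod r) = b.1 i x
  by_cases hi : i ∈ p
  · by_cases hx : x ∈ T i
    · rw [hκ i hi x hx, hκ0 i hi]
    · have h1 : bar i x ∈ T i := by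
        by_contra h'
        exact hx ((hT i x).2 h')
      have h2 := b.2.1 i x
      rw [hκ i hi _ h1, hκ0 i hi] at h2
      rw [← neg_eq_zero.1 h2.symm]
  · rw [b.2.2.1 i hi]; rfl

/-- Integral relations do not exist. -/
theorem no_relation_int (hbar : ∀ i x, bar i (bar i x) = x)
    (hcomm : ∀ i (g : G) (x : X i), g • bar i x = bar i (g • x))
    (p : Finset ι) {r : ℕ} (hr : r.Prime)
    (htrans : ∀ i ∈ p, IsPretransitive G (X i)) (k : ι → ℕ)
    (hX : ∀ i ∈ p, Nat.card (X i) = 2 * r ^ k i)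
    (P : Sylow r G) (T : ∀ i, Finset (X i)) (hT : ∀ i, IsHalf (bar i) (T i))
    (hTs : r ≠ 2 → ∀ i ∈ p, ∀ q : P, ∀ x ∈ T i, q • x ∈ T i)
    (E : ∀ i, X i → ℤ) (hE : ∀ i x, E i (bar i x) = - E i x)
    (hind : ∀ a : ι → ℤ, (∀ g : G, (r : ℤ) ∣ ∑ i ∈ p, a i * ∑ x ∈ T i, E i (g • x)) →
      ∀ i ∈ p, (r : ℤ) ∣ a i)
    (d : ∀ i, X i → ℤ) (hd : ∀ i x, d i (bar i x) = - d i x) (hd0 : ∀ i, i ∉ p → d i = 0)
    (hrel : ∀ g : G, ∑ i ∈ p, ∑ x ∈ T i, d i x * E i (g • x) = 0) : d = 0 := by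
  classical
  have hfr : Fact r.Prime := ⟨hr⟩
  by_contra hcon
  let D : (Σ i, X i) → ℤ := fun y => d y.1 y.2
  obtain ⟨i₀, x₀, hy⟩ : ∃ i x, d i x ≠ 0 := by
    by_contra h
    push Not at h
    exact hcon (funext fun i => funext fun x => h i x)
  obtain ⟨c, hc1, hc2⟩ := Finset.extract_gcd (s := Finset.univ) D ⟨⟨i₀, x₀⟩, Finset.mem_univ _⟩
  have hg0 : Finset.univ.gcd D ≠ 0 := by
    intro h0
    exact hy (Finset.gcd_eq_zero_iff.mp h0 ⟨i₀, x₀⟩ (Finset.mem_univ _))
  have hdc : ∀ i x, d i x = Finset.univ.gcd D * c ⟨i, x⟩ := fun i x => hc1 ⟨i, x⟩ (Finset.mem_univ _)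
  have hc_odd : ∀ i x, c ⟨i, bar i x⟩ = - c ⟨i, x⟩ := by
    intro i x
    have h1 := hd i x
    rw [hdc i x, hdc i (bar i x), ← mul_neg] at h1
    exact mul_left_cancel₀ hg0 h1
  have hc_supp : ∀ i, i ∉ p → ∀ x, c ⟨i, x⟩ = 0 := by
    intro i hi x
    have h1 := congrFun (hd0 i hi) x
    rw [hdc i x, Pi.zero_apply] at h1
    exact (mul_eq_zero.1 h1).resolve_left hg0
  have hcrel : ∀ g : G, ∑ i ∈ p, ∑ x ∈ T i, c ⟨i, x⟩ * E i (g • x) = 0 := by
    intro g
    have h2 := hrel g
    have h3 : ∀ i x, d i x * E i (g • x) = Finset.univ.gcd D * (c ⟨i, x⟩ * E i (g • x)) := by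
      intro i x
      rw [hdc i x]; ring
    simp only [h3, ← Finset.mul_sum] at h2
    exact (mul_eq_zero.mp h2).resolve_left hg0
  have h6 := no_relation_mod hbar hcomm p htrans k hX P T hT hTs
    (fun i x => (E i x : ZMod r)) (fun i x => by rw [hE]; push_cast; rfl) (by
      intro a ha i hi
      have h7 := hind (fun i => ((a i).val : ℤ)) (fun g => by
        rw [← ZMod.intCast_zmod_eq_zero_iff_dvd, ← ha g]
        push_cast
        refine Finset.sum_congr rfl fun i _ => ?_
        rw [ZMod.natCast_zmod_val]) i hi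
      rw [← ZMod.intCast_zmod_eq_zero_iff_dvd] at h7
      push_cast at h7
      rwa [ZMod.natCast_zmod_val] at h7)
    (fun i x => (c ⟨i, x⟩ : ZMod r)) (fun i x => by
      change ((c ⟨i, bar i x⟩ : ℤ) : ZMod r) = - ((c ⟨i, x⟩ : ℤ) : ZMod r)
      rw [hc_odd]; push_cast; rfl)
    (fun i hi => by
      funext x
      change ((c ⟨i, x⟩ : ℤ) : ZMod r) = 0
      rw [hc_supp i hi]; simp)
    (fun g => by
      have h7 := congrArg (fun z : ℤ => (z : ZMod r)) (hcrel g)
      push_cast at h7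
      exact h7)
  have h8 : (r : ℤ) ∣ Finset.univ.gcd c := by
    apply Finset.dvd_gcd
    rintro ⟨i, x⟩ _
    have h9 := congrFun (congrFun h6 i) x
    exact (ZMod.intCast_zmod_eq_zero_iff_dvd _ _).mp h9
  rw [hc2] at h8
  have h11 : r ∣ 1 := by exact_mod_cast h8
  exact hr.one_lt.ne' (Nat.dvd_one.mp h11)

end modr

section blocks

variable {G : Type*} [Group G] [Finite G] {ι κ : Type*} [Fintype ι] [DecidableEq ι]
  [DecidableEq κ]
  {X : ι → Type*} [∀ i, Fintype (X i)] [∀ i, DecidableEq (X i)] [∀ i, MulAction G (X i)]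
  [∀ i, IsPretransitive G (X i)] {bar : ∀ i, X i → X i}

/-- Relations between the rational functions `e i` are trivial. -/
theorem no_relation (hbar : ∀ i x, bar i (bar i x) = x)
    (hcomm : ∀ i (g : G) (x : X i), g • bar i x = bar i (g • x))
    (b : ι → κ) (r : κ → ℕ) (hr : ∀ β, (r β).Prime) (k : ι → ℕ)
    (hX : ∀ i, Nat.card (X i) = 2 * r (b i) ^ k i)
    (P : ∀ β, Sylow (r β) G) (T : ∀ i, Finset (X i)) (hT : ∀ i, IsHalf (bar i) (T i))
    (hTs : ∀ i, r (b i) ≠ 2 → ∀ q ∈ P (b i), ∀ x ∈ T i, q • x ∈ T i)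
    (c : κ → ℚ) (hc : ∀ β, c β ≠ 0) (e : ∀ i, X i → ℚ) (E : ∀ i, X i → ℤ)
    (he : ∀ i x, e i x = c (b i) * E i x)
    (hE : ∀ i x, E i (bar i x) = - E i x)
    (hind : ∀ β, ∀ a : ι → ℤ,
      (∀ g : G, (r β : ℤ) ∣ ∑ i with b i = β, a i * ∑ x ∈ T i, E i (g • x)) →
      ∀ i, b i = β → (r β : ℤ) ∣ a i)
    (hsep : ∀ i j, b i ≠ b j → ∃ g : G, (∀ x : X i, g • x = bar i x) ∧ ∀ x : X j, g • x = x)
    (d : ∀ i, X i → ℤ) (hd : ∀ i x, d i (bar i x) = - d i x)
    (hrel : ∀ g : G, ∑ i, ∑ x, (d i x : ℚ) * e i (g • x) = 0) : d = 0 := by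
  classical
  funext i₀
  -- remove the other blocks one after the other
  have hstep : ∀ U : Finset ι, (∀ j ∈ U, b j ≠ b i₀) → ∃ d' : ∀ i, X i → ℤ,
      (∀ i x, d' i (bar i x) = - d' i x) ∧
      (∀ g : G, ∑ i, ∑ x, (d' i x : ℚ) * e i (g • x) = 0) ∧
      (∃ N : ℤ, N ≠ 0 ∧ ∀ x, d' i₀ x = N * d i₀ x) ∧ ∀ j ∈ U, d' j = 0 := by
    intro U
    induction U using Finset.induction_on with
    | empty =>
      intro _
      exact ⟨d, hd, hrel, ⟨1, one_ne_zero, fun x => by rw [one_mul]⟩, fun j hj => absurd hj (Finset.notMem_empty j)⟩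
    | insert j U hj ih =>
      intro hU
      obtain ⟨d', h1, h2, ⟨N, hN, h3⟩, h4⟩ := ih fun j' hj' => hU j' (Finset.mem_insert_of_mem hj')
      obtain ⟨g, hg1, hg2⟩ := hsep i₀ j (hU j (Finset.mem_insert_self _ _)).symm
      refine ⟨fun i x => d' i x - d' i (g • x), fun i x => ?_, fun g' => ?_, ⟨2 * N, by
        exact mul_ne_zero two_ne_zero hN, fun x => ?_⟩, fun j' hj' => ?_⟩
      · change d' i (bar i x) - d' i (g • bar i x) = - (d' i x - d' i (g • x))
        rw [hcomm, h1, h1]; ring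
      · have h5 := h2 g'
        have h6 := h2 (g' * g⁻¹)
        have h7 : ∀ i, ∑ x, (d' i x : ℚ) * e i ((g' * g⁻¹) • x) =
            ∑ x, (d' i (g • x) : ℚ) * e i (g' • x) := by
          intro i
          symm
          refine Finset.sum_bij (fun x _ => g • x) (fun _ _ => Finset.mem_univ _)
            (fun x _ y _ h => MulAction.injective g h)
            (fun y _ => ⟨g⁻¹ • y, Finset.mem_univ _, smul_inv_smul g y⟩) (fun x _ => ?_)
          rw [← mul_smul, inv_mul_cancel_right]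
        rw [Finset.sum_congr rfl (fun i _ => h7 i)] at h6
        push_cast
        simp only [sub_mul, Finset.sum_sub_distrib]
        rw [h5, h6, sub_zero]
      · change d' i₀ x - d' i₀ (g • x) = 2 * N * d i₀ x
        rw [hg1, h1, h3]; ring
      · funext x
        change d' j' x - d' j' (g • x) = 0
        rcases Finset.mem_insert.1 hj' with rfl | hj''
        · rw [hg2, sub_self]
        · rw [h4 j' hj'']; simp
  obtain ⟨d', h1, h2, ⟨N, hN, h3⟩, h4⟩ := hstep (Finset.univ.filter fun j => b j ≠ b i₀)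
    (fun j hj => (Finset.mem_filter.1 hj).2)
  -- the block of `i₀`
  let p : Finset ι := Finset.univ.filter fun i => b i = b i₀
  have hpb : ∀ i ∈ p, b i = b i₀ := fun i hi => (Finset.mem_filter.1 hi).2
  have hsupp : ∀ i, i ∉ p → d' i = 0 := by
    intro i hi
    apply h4
    rw [Finset.mem_filter]
    refine ⟨Finset.mem_univ _, fun h => hi ?_⟩
    rw [Finset.mem_filter]
    exact ⟨Finset.mem_univ _, h⟩
  have h5 : d' = 0 := by
    refine no_relation_int (G := G) hbar hcomm p (hr (b i₀)) (fun i _ => inferInstance) k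
      (fun i hi => by rw [hX i, hpb i hi]) (P (b i₀)) T hT ?_ E hE (fun a ha i hi => ?_) d' h1
      hsupp ?_
    · intro hr2 i hi q x hx
      have h6 := hTs i (by rw [hpb i hi]; exact hr2) (q : G) (by rw [hpb i hi]; exact q.2) x hx
      exact h6
    · exact hind (b i₀) a ha i (hpb i hi)
    · intro g
      have h6 := h2 g
      have h7 : ∑ i, ∑ x, (d' i x : ℚ) * e i (g • x) =
          ∑ i ∈ p, ∑ x, (d' i x : ℚ) * e i (g • x) := by
        symm
        apply Finset.sum_subset (Finset.subset_univ _)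
        intro i _ hi
        rw [hsupp i hi]; simp
      rw [h7] at h6
      have h8 : ∀ i ∈ p, ∑ x, (d' i x : ℚ) * e i (g • x) =
          2 * c (b i₀) * ((∑ x ∈ T i, d' i x * E i (g • x) : ℤ) : ℚ) := by
        intro i hi
        rw [sum_univ_eq_half (hbar i) _ (hT i)]
        push_cast
        rw [Finset.mul_sum]
        refine Finset.sum_congr rfl fun x _ => ?_
        rw [he, he, hcomm, hE, h1, hpb i hi]
        push_cast
        ring
      rw [Finset.sum_congr rfl h8, ← Finset.mul_sum] at h6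
      have h9 := (mul_eq_zero.1 h6).resolve_left (mul_ne_zero two_ne_zero (hc _))
      exact_mod_cast h9
  funext x
  have h6 := h3 x
  rw [h5] at h6
  change (0 : ℤ) = _ at h6
  exact (mul_eq_zero.1 h6.symm).resolve_left hN

end blocks

end Pool.Agent.Lib.MP_021685_ag.PF
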