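import Mathlib

/-!
# Weil polynomials, Tate forms in several variables from several spaces, and their products
-/

set_option autoImplicit false

open Polynomial

namespace Pool.Agent.Lib.MP_021685_ag.PF

/-- `P` is monic and irreducible over `ℚ` and all its complex roots have absolute value `√q`. -/
def IsWeilPolynomial (q : ℚ) (P : ℚ[X]) : Prop :=
  P.Monic ∧ Irreducible P ∧ ∀ z : ℂ, aeval z P = 0 → ‖z‖ ^ 2 = q

/-- `T` contains exactly one element of each pair `x, q / x` of roots of `P` in `S`. -/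
def IsHalfSystem {S : Type*} [Field S] [Algebra ℚ S] (q : ℚ) (P : ℚ[X]) (T : Finset S) : Prop :=
  (∀ x ∈ T, x ∈ P.rootSet S) ∧ ∀ x ∈ P.rootSet S, x ∈ T ↔ algebraMap ℚ S q / x ∉ T

/-- Some automorphism of `S` is `x ↦ q / x` on the roots of `P` and fixes the roots of `P'`. -/
def IsIndependentOf {S : Type*} [Field S] [Algebra ℚ S] (q : ℚ) (P P' : ℚ[X]) : Prop :=
  ∃ σ : S ≃ₐ[ℚ] S, (∀ x ∈ P.rootSet S, σ x = algebraMap ℚ S q / x) ∧ ∀ x ∈ P'.rootSet S, σ x = x

/-- The functions `σ ↦ ∑ x ∈ T i, E (σ x)` on the Galois group, for `i ∈ I`, are linearly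
independent modulo `r`. -/
def SumsIndependent {ι S : Type*} [Field S] [Algebra ℚ S] (r : ℕ) (I : Finset ι)
    (T : ι → Finset S) (E : S → ℤ) : Prop :=
  ∀ y : ι → ℤ, (∀ σ : S ≃ₐ[ℚ] S, (r : ℤ) ∣ ∑ i ∈ I, y i * ∑ x ∈ T i, E (σ x)) →
    ∀ i ∈ I, (r : ℤ) ∣ y i

/-- The sum of the absolute values of `E` over `T` is odd, and less than `r` unless `r = 2`. -/
def IsSmallOdd {S : Type*} (r : ℕ) (T : Finset S) (E : S → ℤ) : Prop :=
  Odd (∑ x ∈ T, |E x|) ∧ (r = 2 ∨ ∑ x ∈ T, |E x| < r)

section forms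

variable {K : Type*} [Field K] {n : ℕ} {H : Fin n → Type*} [∀ j, AddCommGroup (H j)]
  [∀ j, Module K (H j)]

/-- A form with one variable in each `H j` is a Tate form (for Frobenius endomorphisms `F j` and
weights `a j`) if for some `m > 0` the `2 m`-th powers of the `F j` multiply it by the product of
the `m`-th powers of the `a j`. -/
def IsTateForm (a : Fin n → ℚ) (F : ∀ j, Module.End K (H j)) (B : (∀ j, H j) → K) : Prop :=
  ∃ m : ℕ, 0 < m ∧ ∀ v, B (fun j => (F j ^ (2 * m)) (v j)) = (∏ j, (a j : K) ^ m) * B v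

/-- A product of Tate forms in one and two variables: the variables are grouped by an involution
`σ` into single variables `v j` (where `σ j = j`) and pairs `v j, v (σ j)`; the form is the product
of linear forms `l j` in the single variables, multiplied by `a j ^ m` by `F j ^ (2 m)` for some
`m > 0`, and of bilinear forms in the pairs, multiplied by `a j` by `F j` and `F (σ j)`. -/
def IsTateProduct (a : Fin n → ℚ) (F : ∀ j, Module.End K (H j)) (D : (∀ j, H j) → K) : Prop :=
  ∃ (σ : Fin n → Fin n) (l : ∀ j, H j →ₗ[K] K) (β : ∀ j, H j →ₗ[K] H (σ j) →ₗ[K] K),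
    (∀ j, σ (σ j) = j) ∧ (∀ j, a (σ j) = a j) ∧
    (∀ j, ∃ m : ℕ, 0 < m ∧ ∀ v, l j ((F j ^ (2 * m)) v) = (a j : K) ^ m * l j v) ∧
    (∀ j v w, β j (F j v) (F (σ j) w) = (a j : K) * β j v w) ∧
    ∀ v, D v = ∏ j ∈ Finset.univ.filter (fun j => j ≤ σ j),
      if σ j = j then l j (v j) else β j (v j) (v (σ j))

end forms

/-- `F` is killed by the product of `X ^ (2 M) - a ^ M`, for some `M > 0`, and of the polynomials
`P i` of weight `q i = a`. -/
def IsKilled {ι K H : Type*} [Fintype ι] [Field K] [CharZero K] [AddCommGroup H] [Module K H]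
    (q : ι → ℚ) (P : ι → ℚ[X]) (a : ℚ) (F : Module.End K H) : Prop :=
  ∃ M : ℕ, 0 < M ∧ aeval F (((X ^ (2 * M) - C (a ^ M)) *
    ∏ i ∈ Finset.univ.filter (fun i => q i = a), P i).map (algebraMap ℚ K)) = 0

end Pool.Agent.Lib.MP_021685_ag.PF
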