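import Mathlib
import Pool.Agent.Lib.MP_021685_ag.K3Main
import Pool.Agent.Lib.MP_021685_ag.PF.Defs

/-!
# Multilinear forms with variables in several spaces
-/

set_option autoImplicit false

open Polynomial

namespace Pool.Agent.Lib.MP_021685_ag.PF

open Pool.Agent.Lib.MP_021685_ag

section multilinear

/-- A multilinear map at vectors of a span. -/
theorem map_mem_span_of_span {K' V : Type*} [Field K'] {n : ℕ} {D : Fin n → Type*}
    [∀ j, AddCommGroup (D j)] [∀ j, Module K' (D j)]
    [AddCommGroup V] [Module K' V] (G : MultilinearMap K' D V)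
    (E : ∀ j, Set (D j)) (x : ∀ j, D j) (hx : ∀ i, x i ∈ Submodule.span K' (E i)) :
    G x ∈ Submodule.span K' {z | ∃ y : ∀ j, D j, (∀ i, y i ∈ E i) ∧ G y = z} := by
  classical
  suffices H : ∀ (t : Finset (Fin n)) (x : ∀ j, D j), (∀ i, x i ∈ Submodule.span K' (E i)) →
      (∀ i, i ∉ t → x i ∈ E i) →
      G x ∈ Submodule.span K' {z | ∃ y : ∀ j, D j, (∀ i, y i ∈ E i) ∧ G y = z} from
    H Finset.univ x hx (fun i hi => absurd (Finset.mem_univ i) hi)
  intro t
  induction t using Finset.induction_on with
  | empty =>
    intro x _ h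
    exact Submodule.subset_span ⟨x, fun i => h i (Finset.notMem_empty i), rfl⟩
  | insert j t hj ih =>
    intro x hx h
    have key : ∀ u ∈ Submodule.span K' (E j), G (Function.update x j u) ∈
        Submodule.span K' {z | ∃ y : ∀ j, D j, (∀ i, y i ∈ E i) ∧ G y = z} := by
      intro u hu
      induction hu using Submodule.span_induction with
      | mem u hu =>
        apply ih
        · intro i
          by_cases hij : i = j
          · subst hij
            rw [Function.update_self]
            exact Submodule.subset_span hu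
          · rw [Function.update_of_ne hij]
            exact hx i
        · intro i hi
          by_cases hij : i = j
          · subst hij
            rw [Function.update_self]
            exact hu
          · rw [Function.update_of_ne hij]
            exact h i (fun h' => (Finset.mem_insert.1 h').elim hij hi)
      | zero => rw [MultilinearMap.map_update_zero]; exact Submodule.zero_mem _
      | add a b _ _ ha hb => rw [MultilinearMap.map_update_add]; exact Submodule.add_mem _ ha hb
      | smul c a _ ha => rw [MultilinearMap.map_update_smul]; exact Submodule.smul_mem _ _ ha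
    have := key (x j) (hx j)
    rwa [Function.update_eq_self] at this

variable {K K' : Type*} [Field K] [Field K'] [Algebra K K'] {n : ℕ} {H : Fin n → Type*}
  [∀ j, AddCommGroup (H j)] [∀ j, Module K (H j)]

/-- The product of `K'`-valued linear forms, as a multilinear map of the forms. -/
noncomputable def prodForms (K K' : Type*) [Field K] [Field K'] [Algebra K K'] {n : ℕ}
    (H : Fin n → Type*) [∀ j, AddCommGroup (H j)] [∀ j, Module K (H j)] :
    MultilinearMap K' (fun j => (H j →ₗ[K] K')) ((∀ j, H j) → K') :=
  MultilinearMap.pi fun v : ∀ j, H j =>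
    (MultilinearMap.mkPiAlgebra K' (Fin n) K').compLinearMap fun j =>
      { toFun := fun l : H j →ₗ[K] K' => l (v j)
        map_add' := fun _ _ => rfl
        map_smul' := fun _ _ => rfl }

@[simp] theorem prodForms_apply (l : ∀ j, (H j →ₗ[K] K')) (v : ∀ j, H j) :
    prodForms K K' H l v = ∏ i, l i (v i) := by
  simp [prodForms]

/-- A multilinear form is a combination of products of linear forms. -/
theorem form_mem_span_prod [∀ j, FiniteDimensional K (H j)]
    (B : MultilinearMap K H K) :
    (fun v => algebraMap K K' (B v)) ∈ Submodule.span K'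
      (Set.range fun l : ∀ j, (H j →ₗ[K] K') => prodForms K K' H l) := by
  classical
  let b := fun j => Module.finBasis K (H j)
  have h1 : (fun v => algebraMap K K' (B v)) =
      ∑ f : ∀ j, Fin (Module.finrank K (H j)), algebraMap K K' (B fun i => b i (f i)) •
        prodForms K K' H (fun i => (Algebra.linearMap K K') ∘ₗ (b i).coord (f i)) := by
    funext v
    have h2 : B v = ∑ f : ∀ j, Fin (Module.finrank K (H j)),
        (∏ i, (b i).coord (f i) (v i)) • B fun i => b i (f i) := by
      conv_lhs => rw [show v = fun i => ∑ j, (b i).coord j (v i) • b i j from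
        funext fun i => ((b i).sum_repr (v i)).symm]
      rw [MultilinearMap.map_sum]
      refine Finset.sum_congr rfl fun f _ => ?_
      rw [MultilinearMap.map_smul_univ]
    rw [h2, map_sum, Finset.sum_apply]
    refine Finset.sum_congr rfl fun f _ => ?_
    rw [Pi.smul_apply, prodForms_apply, smul_eq_mul, smul_eq_mul, map_mul, map_prod, mul_comm]
    rfl
  rw [h1]
  apply Submodule.sum_mem
  intro f _
  apply Submodule.smul_mem
  exact Submodule.subset_span ⟨_, rfl⟩

/-- Precomposition of forms with powers of the `F j`. -/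
def preCompN (K' : Type*) [Field K'] (F : ∀ j, Module.End K (H j)) (N : ℕ) :
    Module.End K' ((∀ j, H j) → K') where
  toFun g := fun v => g fun i => (F i ^ N) (v i)
  map_add' _ _ := rfl
  map_smul' _ _ := rfl

/-- A balanced product of eigenforms has coordinates in the span of the Tate products. -/
theorem balanced_product_mem [FiniteDimensional K K'] (a : Fin n → ℚ)
    (F : ∀ j, Module.End K (H j)) (M : Fin n → ℕ)
    (hM : ∀ j, 0 < M j) (l : ∀ j, (H j →ₗ[K] K')) (μ : Fin n → K')
    (hl : ∀ i v, l i (F i v) = μ i * l i v)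
    (σ : Fin n → Fin n) (hσ : ∀ i, σ (σ i) = i) (ha : ∀ i, a (σ i) = a i)
    (h1 : ∀ i, σ i = i → μ i ^ (2 * M i) = algebraMap K K' (a i : K) ^ M i)
    (h2 : ∀ i, σ i ≠ i → μ i * μ (σ i) = algebraMap K K' (a i : K)) :
    (prodForms K K' H l) ∈ coordSub K'
      (Submodule.span K {D : (∀ j, H j) → K | IsTateProduct a F D}) := by
  classical
  intro τ
  let e := Module.finBasis K K'
  let I₀ : Finset (Fin n) := Finset.univ.filter fun i => i ≤ σ i
  let φ : Fin n → (∀ j, H j) → K' := fun i v =>
    if σ i = i then l i (v i) else l i (v i) * l (σ i) (v (σ i))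
  have hpow : ∀ i (m : ℕ) v, l i ((F i ^ m) v) = μ i ^ m * l i v := by
    intro i m
    induction m with
    | zero => intro v; simp
    | succ m ih =>
      intro v
      rw [pow_succ, Module.End.mul_apply, ih, hl, pow_succ, mul_assoc]
  have hprod : ∀ v, prodForms K K' H l v = ∏ i ∈ I₀, φ i v := by
    intro v
    rw [prodForms_apply, prod_involution σ hσ (fun i => l i (v i))]
  have hexp : ∀ v, ∏ i ∈ I₀, φ i v =
      ∑ p ∈ I₀.pi (fun _ => (Finset.univ : Finset (Fin (Module.finrank K K')))),
        (∏ x ∈ I₀.attach, e.coord (p x.1 x.2) (φ x.1 v)) • ∏ x ∈ I₀.attach, e (p x.1 x.2) := by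
    intro v
    have h3 : ∀ i, φ i v = ∑ a, e.coord a (φ i v) • e a := fun i => (e.sum_repr (φ i v)).symm
    conv_lhs => rw [Finset.prod_congr rfl (fun i _ => h3 i)]
    rw [Finset.prod_sum]
    refine Finset.sum_congr rfl fun p _ => ?_
    rw [Finset.prod_smul]
  have hfun : (fun v => τ (prodForms K K' H l v)) =
      ∑ p ∈ I₀.pi (fun _ => (Finset.univ : Finset (Fin (Module.finrank K K')))),
        τ (∏ x ∈ I₀.attach, e (p x.1 x.2)) •
          (fun v => ∏ x ∈ I₀.attach, e.coord (p x.1 x.2) (φ x.1 v)) := by
    funext v
    rw [hprod, hexp, map_sum, Finset.sum_apply]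
    refine Finset.sum_congr rfl fun p _ => ?_
    rw [map_smul, Pi.smul_apply, smul_eq_mul, smul_eq_mul, mul_comm]
  rw [hfun]
  apply Submodule.sum_mem
  intro p _
  apply Submodule.smul_mem
  apply Submodule.subset_span
  refine ⟨σ, fun i => if h : i ∈ I₀ then
      (if σ i = i then (e.coord (p i h)) ∘ₗ (l i) else 0) else 0,
    fun i => if h : i ∈ I₀ then
      (if σ i = i then 0 else ((LinearMap.mul K K').compl₁₂ (l i) (l (σ i))).compr₂
        (e.coord (p i h))) else 0, hσ, ha, ?_, ?_, ?_⟩
  · intro i
    refine ⟨M i, hM i, fun v => ?_⟩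
    by_cases h : i ∈ I₀
    · by_cases h' : σ i = i
      · simp only [dif_pos h, if_pos h', LinearMap.comp_apply]
        rw [hpow, h1 i h', ← map_pow, ← Algebra.smul_def, map_smul, smul_eq_mul]
      · simp [h']
    · simp [h]
  · intro i v w
    by_cases h : i ∈ I₀
    · by_cases h' : σ i = i
      · simp [h']
      · simp only [dif_pos h, if_neg h', LinearMap.compr₂_apply, LinearMap.compl₁₂_apply,
          LinearMap.mul_apply']
        rw [hl, hl, mul_mul_mul_comm, h2 i h', ← Algebra.smul_def, map_smul, smul_eq_mul]
    · simp [h]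
  · intro v
    rw [← Finset.prod_attach]
    refine Finset.prod_congr rfl fun x _ => ?_
    have hx : (x : Fin n) ∈ I₀ := x.2
    by_cases h' : σ x = x
    · simp only [φ, if_pos h', dif_pos hx, LinearMap.comp_apply]
    · simp only [φ, if_neg h', dif_pos hx, LinearMap.compr₂_apply, LinearMap.compl₁₂_apply,
        LinearMap.mul_apply']

end multilinear

end Pool.Agent.Lib.MP_021685_ag.PF
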