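import Mathlib
import Pool.Agent.Lib.MP_021685_ag.Weil
import Pool.Agent.Lib.MP_021685_ag.PF.Comb

/-!
# Multiplicative relations between the roots of several Weil polynomials
-/

set_option autoImplicit false

open Polynomial

namespace Pool.Agent.Lib.MP_021685_ag.PF

open MulAction Pool.Agent.Lib.MP_021685_ag

section one

variable {q : ℚ} {P : ℚ[X]} {S : Type*} [Field S] [Algebra ℚ S]

theorem root_ne_zero' (hP : Irreducible P) (hdeg : 2 ≤ P.natDegree) {x : S}
    (hx : x ∈ P.rootSet S) : x ≠ 0 := by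
  rintro rfl
  have h1 : P.coeff 0 = 0 := by
    have h2 := aeval_eq_zero_of_mem_rootSet hx
    rw [← coeff_zero_eq_aeval_zero', map_eq_zero] at h2
    exact h2
  have h3 : X ∣ P := X_dvd_iff.2 h1
  have h4 : Associated X P := (irreducible_X.dvd_symm hP h3) |> fun h => associated_of_dvd_dvd h3 h
  have h5 := natDegree_eq_of_degree_eq (degree_eq_degree_of_associated h4)
  rw [natDegree_X] at h5
  omega

theorem weight_pos (hP : Irreducible P) (hdeg : 2 ≤ P.natDegree)
    (hW : ∀ z : ℂ, aeval z P = 0 → ‖z‖ ^ 2 = q) : 0 < q := by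
  obtain ⟨z, hz⟩ := IsAlgClosed.exists_aeval_eq_zero ℂ P (by
    rw [Ne, degree_eq_natDegree hP.ne_zero]
    intro h
    have : P.natDegree = 0 := by exact_mod_cast h
    omega)
  have h0 : z ≠ 0 := root_ne_zero' hP hdeg (by
    rw [mem_rootSet_of_ne hP.ne_zero]; exact hz)
  have h1 := hW z hz
  have h2 : (0 : ℝ) < (q : ℝ) := by
    rw [← h1]
    exact pow_pos (norm_pos_iff.2 h0) 2
  exact_mod_cast h2

theorem div_mem_rootSet' (hP : Irreducible P) (hdeg : 2 ≤ P.natDegree)
    (hW : ∀ z : ℂ, aeval z P = 0 → ‖z‖ ^ 2 = q)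
    (i : S →ₐ[ℚ] ℂ) {x : S} (hx : x ∈ P.rootSet S) : algebraMap ℚ S q / x ∈ P.rootSet S := by
  have h0 := root_ne_zero' hP hdeg hx
  have h1 : aeval (i x) P = 0 := by
    rw [aeval_algHom_apply, aeval_eq_zero_of_mem_rootSet hx, map_zero]
  have h2 := hW _ h1
  have hz : i x ≠ 0 := by rwa [Ne, map_eq_zero]
  rw [mem_rootSet_of_ne hP.ne_zero]
  have h3 : i (algebraMap ℚ S q / x) = (starRingEnd ℂ) (i x) := by
    rw [map_div₀, i.commutes, div_eq_iff hz, mul_comm, Complex.mul_conj,
      Complex.normSq_eq_norm_sq, h2]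
    simp
  apply i.toRingHom.injective
  change i _ = i _
  rw [← aeval_algHom_apply, h3, map_zero]
  have h4 : aeval ((Complex.conjAe.toAlgHom.restrictScalars ℚ) (i x)) P = 0 := by
    rw [aeval_algHom_apply, h1, map_zero]
  exact h4

end one

section many

variable {ι κ : Type*} [Fintype ι] [DecidableEq κ] {q : ι → ℚ} {P : ι → ℚ[X]}
  {S : Type*} [Field S] [Algebra ℚ S]

theorem splits_each (hP : ∀ i, Irreducible (P i)) [IsSplittingField ℚ S (∏ i, P i)] (i : ι) :
    ((P i).map (algebraMap ℚ S)).Splits := by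
  have h1 := IsSplittingField.splits S (∏ i, P i)
  refine Splits.of_dvd h1 ?_ ?_
  · exact (Polynomial.map_ne_zero_iff (algebraMap ℚ S).injective).2
      (Finset.prod_ne_zero_iff.2 fun i _ => (hP i).ne_zero)
  · exact (Polynomial.map_dvd_map' (algebraMap ℚ S)).2 (Finset.dvd_prod_of_mem _ (Finset.mem_univ i))

/-- All multiplicative relations between the roots are trivial. -/
theorem balanced (hP : ∀ i, Irreducible (P i))
    (hW : ∀ i (z : ℂ), aeval z (P i) = 0 → ‖z‖ ^ 2 = q i)
    (b : ι → κ) (r : κ → ℕ) (hr : ∀ β, (r β).Prime) (k : ι → ℕ)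
    (hdeg : ∀ i, (P i).natDegree = 2 * r (b i) ^ k i)
    [IsSplittingField ℚ S (∏ i, P i)] (w : AddValuation S (WithTop ℚ))
    (c : κ → ℚ) (hc : ∀ β, c β ≠ 0) (E : S → ℤ)
    (hE : ∀ i, ∀ x ∈ (P i).rootSet S,
      slope w x - slope w (algebraMap ℚ S (q i) / x) = c (b i) * E x)
    (R : ∀ β, Sylow (r β) (S ≃ₐ[ℚ] S)) (T : ι → Finset S)
    (hT1 : ∀ i, ∀ x ∈ T i, x ∈ (P i).rootSet S)
    (hT : ∀ i, ∀ x ∈ (P i).rootSet S, x ∈ T i ↔ algebraMap ℚ S (q i) / x ∉ T i)
    (hTs : ∀ i, r (b i) ≠ 2 → ∀ σ ∈ R (b i), ∀ x ∈ T i, σ x ∈ T i)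
    (hind : ∀ β, ∀ a : ι → ℤ,
      (∀ σ : S ≃ₐ[ℚ] S, (r β : ℤ) ∣ ∑ i with b i = β, a i * ∑ x ∈ T i, E (σ x)) →
      ∀ i, b i = β → (r β : ℤ) ∣ a i)
    (hsep : ∀ i j, b i ≠ b j → ∃ σ : S ≃ₐ[ℚ] S,
      (∀ x ∈ (P i).rootSet S, σ x = algebraMap ℚ S (q i) / x) ∧
      ∀ x ∈ (P j).rootSet S, σ x = x) :
    ∃ bar : ∀ i, (P i).rootSet S → (P i).rootSet S,
      (∀ i x, bar i (bar i x) = x) ∧ (∀ i x, bar i x ≠ x) ∧
      (∀ i (x : (P i).rootSet S), (x : S) * (bar i x : S) = algebraMap ℚ S (q i)) ∧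
      ∀ (d : ∀ i, (P i).rootSet S → ℕ) (m : ℕ), m ≠ 0 →
        (∏ i, ∏ x : (P i).rootSet S, (x : S) ^ (2 * d i x)) ^ m =
          (∏ i, ∏ x : (P i).rootSet S, algebraMap ℚ S (q i) ^ (d i x)) ^ m →
        ∀ i x, d i x = d i (bar i x) := by
  classical
  have hdeg2 : ∀ i, 2 ≤ (P i).natDegree := by
    intro i
    rw [hdeg i]
    have := Nat.pow_pos (n := k i) (hr (b i)).pos
    omega
  have hfin : FiniteDimensional ℚ S := IsSplittingField.finiteDimensional S (∏ i, P i)
  have hnormal : Normal ℚ S := Normal.of_isSplittingField (∏ i, P i)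
  have hsplit := splits_each (S := S) hP
  have htrans : ∀ i, MulAction.IsPretransitive (S ≃ₐ[ℚ] S) ((P i).rootSet S) :=
    fun i => rootSet_pretransitive (hP i)
  have halg : Algebra.IsAlgebraic ℚ S := inferInstance
  let φ : S →ₐ[ℚ] ℂ := IsAlgClosed.lift
  have hq : ∀ i, 0 < q i := fun i => weight_pos (hP i) (hdeg2 i) (hW i)
  have hq0 : ∀ i, algebraMap ℚ S (q i) ≠ 0 := fun i => by
    rw [Ne, map_eq_zero]; exact (hq i).ne'
  have hne : ∀ i (x : (P i).rootSet S), (x : S) ≠ 0 := fun i x =>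
    root_ne_zero' (hP i) (hdeg2 i) x.2
  let bar : ∀ i, (P i).rootSet S → (P i).rootSet S := fun i x =>
    ⟨algebraMap ℚ S (q i) / x, div_mem_rootSet' (hP i) (hdeg2 i) (hW i) φ x.2⟩
  have hbarv : ∀ i x, (bar i x : S) = algebraMap ℚ S (q i) / x := fun i x => rfl
  have hbar : ∀ i x, bar i (bar i x) = x := by
    intro i x
    apply Subtype.ext
    rw [hbarv, hbarv]
    have h1 := hne i x
    have h2 := hq0 i
    field_simp
  have hmul : ∀ i (x : (P i).rootSet S), (x : S) * (bar i x : S) = algebraMap ℚ S (q i) := by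
    intro i x
    rw [hbarv]
    have h1 := hne i x
    field_simp
  have hsmul : ∀ i (g : S ≃ₐ[ℚ] S) (x : (P i).rootSet S), ((g • x : (P i).rootSet S) : S) = g x :=
    fun i g x => rfl
  have hcomm : ∀ i (g : S ≃ₐ[ℚ] S) (x : (P i).rootSet S), g • bar i x = bar i (g • x) := by
    intro i g x
    apply Subtype.ext
    rw [hsmul, hbarv, hbarv, hsmul, map_div₀, AlgEquiv.commutes]
  -- the half systems
  let T' : ∀ i, Finset ((P i).rootSet S) := fun i => Finset.univ.filter fun x => (x : S) ∈ T i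
  have hT'mem : ∀ i x, x ∈ T' i ↔ (x : S) ∈ T i := by
    intro i x
    simp [T']
  have hT'half : ∀ i, IsHalf (bar i) (T' i) := by
    intro i x
    rw [hT'mem, hT'mem]
    exact hT i x x.2
  have hfix : ∀ i x, bar i x ≠ x := by
    intro i x h
    have := hT'half i x
    rw [h] at this
    tauto
  have hsumT : ∀ i (g : S ≃ₐ[ℚ] S), ∑ x ∈ T' i, E ((g • x : (P i).rootSet S) : S) =
      ∑ x ∈ T i, E (g x) := by
    intro i g
    refine Finset.sum_bij (fun x _ => (x : S)) (fun x hx => (hT'mem i x).1 hx)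
      (fun x _ y _ h => Subtype.ext h)
      (fun y hy => ⟨⟨y, hT1 i y hy⟩, (hT'mem i _).2 hy, rfl⟩) (fun x _ => ?_)
    rw [hsmul]
  -- slopes
  let e : ∀ i, (P i).rootSet S → ℚ := fun i x => 2 * slope w (x : S) - slope w (algebraMap ℚ S (q i))
  have he : ∀ i x, e i x = c (b i) * (E (x : S) : ℤ) := by
    intro i x
    rw [← hE i x x.2]
    have h1 : slope w (algebraMap ℚ S (q i)) = slope w (x : S) + slope w (bar i x : S) := by
      rw [← slope_mul w (hne i x) (hne i _), hmul]
    rw [hbarv] at h1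
    simp only [e]
    rw [h1]; ring
  have hEodd : ∀ i x, E (bar i x : S) = - E (x : S) := by
    intro i x
    have h1 := he i x
    have h2 := he i (bar i x)
    have h3 : slope w (algebraMap ℚ S (q i)) = slope w (x : S) + slope w (bar i x : S) := by
      rw [← slope_mul w (hne i x) (hne i _), hmul]
    have h4 : e i (bar i x) = - e i x := by
      simp only [e]
      rw [h3]; ring
    rw [h4, h1] at h2
    have h5 : c (b i) * ((E (bar i x : S) : ℚ) + E (x : S)) = 0 := by linear_combination -h2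
    have h6 := (mul_eq_zero.1 h5).resolve_left (hc _)
    have h7 : E (bar i x : S) + E (x : S) = 0 := by exact_mod_cast h6
    omega
  refine ⟨bar, hbar, hfix, hmul, fun d m hm hrel i x => ?_⟩
  -- the linear relations
  have hlin : ∀ g : S ≃ₐ[ℚ] S, ∑ i, ∑ x, (d i x : ℚ) * e i (g • x) = 0 := by
    intro g
    have h1 : (∏ i, ∏ x : (P i).rootSet S, ((g • x : (P i).rootSet S) : S) ^ (2 * d i x)) ^ m =
        (∏ i, ∏ x : (P i).rootSet S, algebraMap ℚ S (q i) ^ (d i x)) ^ m := by
      have h2 := congrArg (fun z => g z) hrel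
      simp only [map_pow, map_prod, AlgEquiv.commutes] at h2
      exact h2
    have h3 := congrArg (slope w) h1
    rw [slope_pow w (Finset.prod_ne_zero_iff.2 fun i _ => Finset.prod_ne_zero_iff.2 fun x _ =>
        pow_ne_zero _ (hne _ _)),
      slope_pow w (Finset.prod_ne_zero_iff.2 fun i _ => Finset.prod_ne_zero_iff.2 fun x _ =>
        pow_ne_zero _ (hq0 i)),
      slope_prod w _ _ (fun i _ => Finset.prod_ne_zero_iff.2 fun x _ => pow_ne_zero _ (hne _ _)),
      slope_prod w _ _ (fun i _ => Finset.prod_ne_zero_iff.2 fun x _ => pow_ne_zero _ (hq0 i))] at h3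
    have hm' : (m : ℚ) ≠ 0 := by exact_mod_cast hm
    have h4 := mul_left_cancel₀ hm' h3
    have h5 : ∀ i, slope w (∏ x : (P i).rootSet S, ((g • x : (P i).rootSet S) : S) ^ (2 * d i x)) =
        ∑ x : (P i).rootSet S, (d i x : ℚ) * (2 * slope w ((g • x : (P i).rootSet S) : S)) := by
      intro i
      rw [slope_prod w _ _ (fun x _ => pow_ne_zero _ (hne _ _))]
      refine Finset.sum_congr rfl fun x _ => ?_
      rw [slope_pow w (hne _ _)]
      push_cast; ring
    have h6 : ∀ i, slope w (∏ x : (P i).rootSet S, algebraMap ℚ S (q i) ^ (d i x)) =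
        ∑ x : (P i).rootSet S, (d i x : ℚ) * slope w (algebraMap ℚ S (q i)) := by
      intro i
      rw [slope_prod w _ _ (fun x _ => pow_ne_zero _ (hq0 i))]
      refine Finset.sum_congr rfl fun x _ => ?_
      rw [slope_pow w (hq0 i)]
    rw [Finset.sum_congr rfl (fun i _ => h5 i), Finset.sum_congr rfl (fun i _ => h6 i)] at h4
    simp only [e, mul_sub, Finset.sum_sub_distrib]
    rw [h4, sub_self]
  have hzero := no_relation (G := S ≃ₐ[ℚ] S) (X := fun i => (P i).rootSet S) (bar := bar) hbar hcomm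
    b r hr k (fun i => by
      rw [Nat.card_eq_fintype_card, card_rootSet_eq_natDegree (hP i).separable (hsplit i), hdeg i])
    R T' hT'half (fun i hi σ hσ x hx => by
      rw [hT'mem] at hx ⊢
      exact hTs i hi σ hσ x hx)
    c hc e (fun i x => E (x : S)) he hEodd
    (fun β a ha i hi => hind β a (fun σ => by
      have h1 := ha σ
      have h2 : ∑ i with b i = β, a i * ∑ x ∈ T' i, E ((σ • x : (P i).rootSet S) : S) =
          ∑ i with b i = β, a i * ∑ x ∈ T i, E (σ x) :=
        Finset.sum_congr rfl fun i _ => by rw [hsumT i σ]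
      rw [h2] at h1
      exact h1) i hi)
    (fun i j hij => by
      obtain ⟨σ, h1, h2⟩ := hsep i j hij
      refine ⟨σ, fun x => ?_, fun x => ?_⟩
      · apply Subtype.ext
        rw [hsmul, hbarv]
        exact h1 x x.2
      · apply Subtype.ext
        rw [hsmul]
        exact h2 x x.2)
    (fun i x => (d i x : ℤ) - d i (bar i x)) (fun i x => by
      rw [hbar]; ring) (fun g => by
      have h1 := hlin g
      have h2 : ∑ i, ∑ x, ((d i (bar i x) : ℕ) : ℚ) * e i (g • x) = 0 := by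
        have h3 : ∀ i, ∑ x, ((d i (bar i x) : ℕ) : ℚ) * e i (g • x) =
            - ∑ x, (d i x : ℚ) * e i (g • x) := by
          intro i
          rw [← Finset.sum_neg_distrib]
          refine Finset.sum_bij (fun x _ => bar i x) (fun _ _ => Finset.mem_univ _)
            (fun x _ y _ h => by rw [← hbar i x, h, hbar]) (fun y _ => ⟨bar i y, Finset.mem_univ _, hbar i y⟩)
            (fun x _ => ?_)
          rw [hcomm, he, he, hEodd]
          push_cast; ring
        rw [Finset.sum_congr rfl (fun i _ => h3 i), Finset.sum_neg_distrib, h1, neg_zero]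
      push_cast
      simp only [sub_mul, Finset.sum_sub_distrib]
      rw [h1, h2, sub_self])
  have h1 := congrFun (congrFun hzero i) x
  change (d i x : ℤ) - d i (bar i x) = 0 at h1
  omega

end many

end Pool.Agent.Lib.MP_021685_ag.PF
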