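import Mathlib
import Pool.Agent.Lib.MP_021685_ag.PF.Forms
import Pool.Agent.Lib.MP_021685_ag.PF.Rel

/-!
# Tate forms in several variables, from multiplicative relations
-/

set_option autoImplicit false

open Polynomial

namespace Pool.Agent.Lib.MP_021685_ag.PF

open Pool.Agent.Lib.MP_021685_ag

section main

variable {ι : Type*} [Fintype ι] {q : ι → ℚ} {P : ι → ℚ[X]} {S : Type*} [Field S] [Algebra ℚ S]

/-- If all multiplicative relations between the roots are trivial, then Tate forms are sums
of products of Tate forms of degree one and two. -/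
theorem tateForm_mem_span (hP : ∀ i, Irreducible (P i)) (hmon : ∀ i, (P i).Monic)
    (hinj : Function.Injective P) (hq : ∀ i, 0 < q i)
    [IsSplittingField ℚ S (∏ i, P i)]
    {bar : ∀ i, (P i).rootSet S → (P i).rootSet S}
    (hbar : ∀ i x, bar i (bar i x) = x) (hfix : ∀ i x, bar i x ≠ x)
    (hmul : ∀ i (x : (P i).rootSet S), (x : S) * (bar i x : S) = algebraMap ℚ S (q i))
    (hrel : ∀ (d : ∀ i, (P i).rootSet S → ℕ) (m : ℕ), m ≠ 0 →
        (∏ i, ∏ x : (P i).rootSet S, (x : S) ^ (2 * d i x)) ^ m =
          (∏ i, ∏ x : (P i).rootSet S, algebraMap ℚ S (q i) ^ (d i x)) ^ m →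
        ∀ i x, d i x = d i (bar i x))
    {K : Type*} [Field K] [CharZero K] {n : ℕ} {H : Fin n → Type*} [∀ j, AddCommGroup (H j)]
    [∀ j, Module K (H j)] [∀ j, FiniteDimensional K (H j)]
    (a : Fin n → ℚ) (ha : ∀ j, 0 < a j) (F : ∀ j, Module.End K (H j))
    (hF : ∀ j, IsKilled q P (a j) (F j))
    (B : MultilinearMap K H K) (hB : IsTateForm a F fun v => B v) :
    (fun v => B v) ∈ Submodule.span K {D : (∀ j, H j) → K | IsTateProduct a F D} := by
  classical
  choose M hM hF using hF
  have hS := splits_each (S := S) hP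
  -- the polynomials of the variables
  let R : Fin n → ℚ[X] := fun j => (X ^ (2 * M j) - C (a j ^ M j)) *
    ∏ i ∈ Finset.univ.filter (fun i => q i = a j), P i
  -- no root of `P i` is a root of `X ^ (2 M) - (q i) ^ M`
  have hnoroot : ∀ i (x : (P i).rootSet S) (m : ℕ), 0 < m →
      (x : S) ^ (2 * m) ≠ algebraMap ℚ S (q i) ^ m := by
    intro i x m hm h
    have h4 := hrel (fun i' x' => if (⟨i', x'⟩ : Σ i, (P i).rootSet S) = ⟨i, x⟩ then 1 else 0) m
      hm.ne' (by
        have h5 : ∏ i', ∏ x' : (P i').rootSet S,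
            (x' : S) ^ (2 * (if (⟨i', x'⟩ : Σ i, (P i).rootSet S) = ⟨i, x⟩ then 1 else 0)) =
            (x : S) ^ 2 := by
          rw [Finset.prod_eq_single i, Finset.prod_eq_single x]
          · simp
          · intro y _ hy; simp [hy]
          · intro h; exact absurd (Finset.mem_univ _) h
          · intro i' _ hi'
            apply Finset.prod_eq_one
            intro y _
            rw [if_neg (fun h => hi' (congrArg Sigma.fst h))]
            simp
          · intro h; exact absurd (Finset.mem_univ _) h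
        have h6 : ∏ i', ∏ x' : (P i').rootSet S,
            algebraMap ℚ S (q i') ^ (if (⟨i', x'⟩ : Σ i, (P i).rootSet S) = ⟨i, x⟩ then 1 else 0) =
            algebraMap ℚ S (q i) := by
          rw [Finset.prod_eq_single i, Finset.prod_eq_single x]
          · simp
          · intro y _ hy; simp [hy]
          · intro h; exact absurd (Finset.mem_univ _) h
          · intro i' _ hi'
            apply Finset.prod_eq_one
            intro y _
            rw [if_neg (fun h => hi' (congrArg Sigma.fst h))]
            simp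
          · intro h; exact absurd (Finset.mem_univ _) h
        rw [h5, h6, ← pow_mul]
        exact h) i x
    simp only [Sigma.mk.injEq, heq_eq_eq, true_and, if_true] at h4
    rw [if_neg (hfix i x)] at h4
    exact one_ne_zero h4
  -- separability
  have hcop : ∀ i i', i ≠ i' → IsCoprime (P i) (P i') := by
    intro i i' hii
    rw [(hP i).coprime_iff_not_dvd]
    intro h
    have h1 : Associated (P i) (P i') := (hP i).associated_of_dvd (hP i') h
    exact hii (hinj (eq_of_monic_of_associated (hmon i) (hmon i') h1))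
  have hsepR : ∀ j, (R j).Separable := by
    intro j
    refine Separable.mul ?_ ?_ ?_
    · apply Polynomial.separable_X_pow_sub_C
      · have := hM j
        exact_mod_cast (by omega : 2 * M j ≠ 0)
      · exact pow_ne_zero _ (ha j).ne'
    · apply Polynomial.separable_prod'
      · intro i _ i' _ hii
        exact hcop i i' hii
      · intro i _
        exact (hP i).separable
    · apply IsCoprime.prod_right
      intro i hi
      apply IsCoprime.symm
      rw [(hP i).coprime_iff_not_dvd]
      intro hdvd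
      obtain ⟨x⟩ : Nonempty ((P i).rootSet S) := by
        have h1 : 0 < Fintype.card ((P i).rootSet S) := by
          rw [card_rootSet_eq_natDegree (hP i).separable (hS i)]
          exact (hP i).natDegree_pos
        exact Fintype.card_pos_iff.1 h1
      apply hnoroot i x (M j) (hM j)
      have h3 : aeval (x : S) (X ^ (2 * M j) - C (a j ^ M j) : ℚ[X]) = 0 := by
        obtain ⟨c, hc⟩ := hdvd
        rw [hc, map_mul, aeval_eq_zero_of_mem_rootSet x.2, zero_mul]
      rw [map_sub, map_pow, aeval_X, aeval_C, map_pow] at h3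
      rw [(Finset.mem_filter.1 hi).2]
      exact sub_eq_zero.1 h3
  -- a splitting field
  let W : ℚ[X] := (∏ i, P i) * ∏ j, (X ^ (2 * M j) - C (a j ^ M j))
  have hW0 : W ≠ 0 := by
    refine mul_ne_zero (Finset.prod_ne_zero_iff.2 fun i _ => (hP i).ne_zero)
      (Finset.prod_ne_zero_iff.2 fun j _ => ?_)
    have h1 : (X ^ (2 * M j) - C (a j ^ M j) : ℚ[X]).Separable := by
      apply Polynomial.separable_X_pow_sub_C
      · have := hM j
        exact_mod_cast (by omega : 2 * M j ≠ 0)
      · exact pow_ne_zero _ (ha j).ne'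
    exact h1.ne_zero
  obtain ⟨K', hK'1, hK'2, hK'3, hsplit⟩ : ∃ (K' : Type _) (_ : Field K') (_ : Algebra K K')
      (_ : FiniteDimensional K K'), ((W.map (algebraMap ℚ K)).map (algebraMap K K')).Splits :=
    ⟨(W.map (algebraMap ℚ K)).SplittingField, inferInstance, inferInstance, inferInstance,
      SplittingField.splits _⟩
  have hchar : CharZero K' := charZero_of_injective_algebraMap (algebraMap K K').injective
  have hmap : ∀ Z : ℚ[X], (Z.map (algebraMap ℚ K)).map (algebraMap K K') =
      Z.map (algebraMap ℚ K') := by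
    intro Z
    rw [Polynomial.map_map]
    congr 1
    exact Subsingleton.elim _ _
  rw [hmap] at hsplit
  have hWmap0 : W.map (algebraMap ℚ K') ≠ 0 :=
    (Polynomial.map_ne_zero_iff (algebraMap ℚ K').injective).2 hW0
  have hsplitP : ((∏ i, P i).map (algebraMap ℚ K')).Splits :=
    Polynomial.Splits.of_dvd hsplit hWmap0 ((Polynomial.map_dvd_map' _).2 (dvd_mul_right _ _))
  have hRW : ∀ j, R j ∣ W := by
    intro j
    change (X ^ (2 * M j) - C (a j ^ M j)) *
      ∏ i ∈ Finset.univ.filter (fun i => q i = a j), P i ∣ _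
    rw [mul_comm]
    exact mul_dvd_mul (Finset.prod_dvd_prod_of_subset _ _ _ (Finset.filter_subset _ _))
      (Finset.dvd_prod_of_mem (fun j => (X ^ (2 * M j) - C (a j ^ M j) : ℚ[X])) (Finset.mem_univ j))
  have hsplitR : ∀ j, ((R j).map (algebraMap ℚ K')).Splits := fun j =>
    Polynomial.Splits.of_dvd hsplit hWmap0 ((Polynomial.map_dvd_map' _).2 (hRW j))
  have hR0 : ∀ j, (R j).map (algebraMap ℚ K') ≠ 0 := fun j =>
    (Polynomial.map_ne_zero_iff (algebraMap ℚ K').injective).2 (hsepR j).ne_zero
  let φ : S →ₐ[ℚ] K' := IsSplittingField.lift S (∏ i, P i) hsplitP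
  have hratK : ∀ x : ℚ, algebraMap K K' (x : K) = algebraMap ℚ K' x := by
    intro x
    rw [map_ratCast]
    exact (eq_ratCast (algebraMap ℚ K') x).symm
  -- eigenforms span
  have hspan : ∀ j (l : H j →ₗ[K] K'), l ∈ Submodule.span K' {u : H j →ₗ[K] K' |
      ∃ x ∈ ((R j).map (algebraMap ℚ K')).roots, preComp K' (F j) u = x • u} := by
    intro j l
    refine span_eigenvectors (preComp K' (F j)) ((R j).map (algebraMap ℚ K')) (hsplitR j)
      (hsepR j).map ?_ l
    rw [← hmap]
    apply LinearMap.ext
    intro u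
    rw [aeval_preComp, hF j, LinearMap.comp_zero]
    rfl
  -- classification of the eigenvalues
  have hroot : ∀ j, ∀ x ∈ ((R j).map (algebraMap ℚ K')).roots,
      x ^ (2 * M j) = algebraMap ℚ K' (a j) ^ M j ∨
      ∃ y : Σ i, (P i).rootSet S, q y.1 = a j ∧ φ (y.2 : S) = x := by
    intro j x hx
    rw [mem_roots (hR0 j), IsRoot.def, eval_map_algebraMap, map_mul, mul_eq_zero] at hx
    rcases hx with hx | hx
    · left
      rw [map_sub, map_pow, aeval_X, aeval_C, map_pow] at hx
      exact sub_eq_zero.1 hx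
    · right
      rw [map_prod, Finset.prod_eq_zero_iff] at hx
      obtain ⟨i, hi, hix⟩ := hx
      have hx2 : x ∈ (P i).rootSet K' := by
        rw [mem_rootSet_of_ne (hP i).ne_zero]; exact hix
      rw [← (hS i).image_rootSet φ] at hx2
      obtain ⟨y, hy, rfl⟩ := hx2
      exact ⟨⟨i, ⟨y, hy⟩⟩, (Finset.mem_filter.1 hi).2, rfl⟩
  apply mem_of_algebraMap_mem_coordSub (K' := K')
  -- reduce to eigenforms
  let I := {l : ∀ j, (H j →ₗ[K] K') // ∀ j, ∃ x ∈ ((R j).map (algebraMap ℚ K')).roots,
    preComp K' (F j) (l j) = x • l j}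
  let μ : I → Fin n → K' := fun l j => (l.2 j).choose
  have hμ1 : ∀ (l : I) j, μ l j ∈ ((R j).map (algebraMap ℚ K')).roots := fun l j =>
    (l.2 j).choose_spec.1
  have hμ2 : ∀ (l : I) j v, l.1 j (F j v) = μ l j * l.1 j v := by
    intro l j v
    have := congrArg (fun g : H j →ₗ[K] K' => g v) (l.2 j).choose_spec.2
    exact this
  have hin : (fun v => algebraMap K K' (B v)) ∈ Submodule.span K'
      (Set.range fun l : I => prodForms K K' H l.1) := by
    have h1 := form_mem_span_prod (K' := K') B
    have h2 : Submodule.span K' (Set.range fun l : ∀ j, (H j →ₗ[K] K') =>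
        prodForms K K' H l) ≤ Submodule.span K' (Set.range fun l : I =>
          prodForms K K' H l.1) := by
      rw [Submodule.span_le]
      rintro _ ⟨l, rfl⟩
      have h3 := map_mem_span_of_span (prodForms K K' H) _ l (fun j => hspan j (l j))
      refine Submodule.span_mono ?_ h3
      rintro _ ⟨y, hy, rfl⟩
      exact ⟨⟨y, hy⟩, rfl⟩
    exact h2 h1
  obtain ⟨N, hN, hBN⟩ := hB
  have hpow : ∀ (l : I) j (m : ℕ) v, l.1 j ((F j ^ m) v) = μ l j ^ m * l.1 j v := by
    intro l j m
    induction m with
    | zero => intro v; simp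
    | succ m ih =>
      intro v
      rw [pow_succ, Module.End.mul_apply, ih, hμ2, pow_succ, mul_assoc]
  have h2 := mem_span_eigen (preCompN (K := K) K' F (2 * N))
    (fun l : I => prodForms K K' H l.1) (fun l => (∏ j, μ l j) ^ (2 * N)) (by
      intro l
      funext v
      change prodForms K K' H l.1 (fun j => (F j ^ (2 * N)) (v j)) = (∏ j, μ l j) ^ (2 * N) •
        prodForms K K' H l.1 v
      rw [prodForms_apply, prodForms_apply,
        Finset.prod_congr rfl (fun j _ => hpow l j (2 * N) (v j)),
        Finset.prod_mul_distrib, Finset.prod_pow, smul_eq_mul])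
    (algebraMap K K' (∏ j, (a j : K) ^ N)) hin (by
      funext v
      have h3 := congrArg (algebraMap K K') (hBN v)
      rw [map_mul] at h3
      exact h3)
  refine (Submodule.span_le.2 ?_) h2
  rintro _ ⟨l, hl, rfl⟩
  change (∏ j, μ l j) ^ (2 * N) = algebraMap K K' (∏ j, (a j : K) ^ N) at hl
  have haK : ∀ j, algebraMap ℚ K' (a j) ≠ 0 := fun j => by
    rw [Ne, map_eq_zero]; exact (ha j).ne'
  have hl' : ∏ j, (μ l j ^ 2 / algebraMap ℚ K' (a j)) ^ N = 1 := by
    rw [Finset.prod_pow, Finset.prod_div_distrib, div_pow, Finset.prod_pow, ← pow_mul, hl,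
      map_prod, ← Finset.prod_pow]
    rw [div_eq_one_iff_eq (Finset.prod_ne_zero_iff.2 fun j _ => pow_ne_zero _ (haK j))]
    refine Finset.prod_congr rfl fun j _ => ?_
    rw [map_pow, hratK]
  -- labels
  let f : Fin n → Option (Σ i, (P i).rootSet S) := fun j =>
    if h : ∃ y : Σ i, (P i).rootSet S, q y.1 = a j ∧ φ (y.2 : S) = μ l j then some h.choose else none
  have hf1 : ∀ j y, f j = some y → q y.1 = a j ∧ φ (y.2 : S) = μ l j := by
    intro j y hy
    by_cases h : ∃ y : Σ i, (P i).rootSet S, q y.1 = a j ∧ φ (y.2 : S) = μ l j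
    · simp only [f, dif_pos h, Option.some.injEq] at hy
      rw [← hy]; exact h.choose_spec
    · simp only [f, dif_neg h] at hy
      exact absurd hy (by simp)
  have hf2 : ∀ j, f j = none → μ l j ^ (2 * M j) = algebraMap ℚ K' (a j) ^ M j := by
    intro j hj
    rcases hroot j _ (hμ1 l j) with h | h
    · exact h
    · simp only [f, dif_pos h] at hj
      exact absurd hj (by simp)
  let bar' : (Σ i, (P i).rootSet S) → (Σ i, (P i).rootSet S) := fun y => ⟨y.1, bar y.1 y.2⟩
  let L : ℕ := ∏ j, M j
  have hL : 0 < L := Finset.prod_pos fun j _ => hM j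
  let U : (Σ i, (P i).rootSet S) → K' := fun y => φ (y.2 : S) ^ 2 / algebraMap ℚ K' (q y.1)
  have hU : ∀ j, (μ l j ^ 2 / algebraMap ℚ K' (a j)) ^ (N * L) =
      (f j).elim 1 (fun y => U y ^ (N * L)) := by
    intro j
    rcases hj : f j with _ | y
    · rw [Option.elim_none]
      obtain ⟨c, hc⟩ : M j ∣ L := Finset.dvd_prod_of_mem M (Finset.mem_univ j)
      have h3 : (μ l j ^ 2 / algebraMap ℚ K' (a j)) ^ M j = 1 := by
        rw [div_pow, ← pow_mul, hf2 j hj, div_self (pow_ne_zero _ (haK j))]
      rw [hc, mul_left_comm, pow_mul, h3, one_pow]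
    · rw [Option.elim_some]
      obtain ⟨h3, h4⟩ := hf1 j y hj
      simp only [U]
      rw [h3, h4]
  have hcount : ∀ y : Σ i, (P i).rootSet S, Nat.card {j // f j = some y} =
      Nat.card {j // f j = some (bar' y)} := by
    have h4 : ∏ j, (μ l j ^ 2 / algebraMap ℚ K' (a j)) ^ (N * L) = 1 := by
      simp only [pow_mul]
      rw [Finset.prod_pow, hl', one_pow]
    rw [Finset.prod_congr rfl (fun j _ => hU j)] at h4
    have h5 : ∀ j, (f j).elim (1 : K') (fun y => U y ^ (N * L)) =
        ∏ y : Σ i, (P i).rootSet S, if f j = some y then U y ^ (N * L) else 1 := by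
      intro j
      rcases hj : f j with _ | y
      · simp
      · rw [Option.elim_some, Finset.prod_eq_single y]
        · simp
        · intro z _ hz
          rw [if_neg]
          intro h
          exact hz (Option.some.inj h).symm
        · intro h; exact absurd (Finset.mem_univ _) h
    rw [Finset.prod_congr rfl (fun j _ => h5 j), Finset.prod_comm] at h4
    have h6 : ∀ y : Σ i, (P i).rootSet S, (∏ j, if f j = some y then U y ^ (N * L) else 1) =
        (U y ^ (Nat.card {j // f j = some y})) ^ (N * L) := by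
      intro y
      rw [Finset.prod_ite, Finset.prod_const_one, mul_one, Finset.prod_const, ← pow_mul, ← pow_mul,
        mul_comm (N * L)]
      congr 2
      rw [Nat.card_eq_fintype_card, Fintype.card_subtype]
    rw [Finset.prod_congr rfl (fun y _ => h6 y), Finset.prod_pow] at h4
    have hqK : ∀ i, algebraMap ℚ K' (q i) ≠ 0 := fun i => by
      rw [Ne, map_eq_zero]; exact (hq i).ne'
    have h7 := hrel (fun i x => Nat.card {j // f j = some (⟨i, x⟩ : Σ i, (P i).rootSet S)})
      (N * L) (Nat.mul_pos hN hL).ne' (by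
        apply φ.toRingHom.injective
        change φ _ = φ _
        rw [map_pow, map_pow, map_prod, map_prod]
        simp only [map_prod, map_pow, AlgHom.commutes]
        have h8 : (∏ i, ∏ x : (P i).rootSet S, φ (x : S) ^
            (2 * Nat.card {j // f j = some (⟨i, x⟩ : Σ i, (P i).rootSet S)})) /
            (∏ i, ∏ x : (P i).rootSet S, algebraMap ℚ K' (q i) ^
            (Nat.card {j // f j = some (⟨i, x⟩ : Σ i, (P i).rootSet S)})) =
            ∏ y : Σ i, (P i).rootSet S, U y ^ (Nat.card {j // f j = some y}) := by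
          rw [Fintype.prod_sigma, ← Finset.prod_div_distrib]
          refine Finset.prod_congr rfl fun i _ => ?_
          rw [← Finset.prod_div_distrib]
          refine Finset.prod_congr rfl fun x _ => ?_
          simp only [U]
          rw [div_pow, ← pow_mul]
        have h9 : (∏ i, ∏ x : (P i).rootSet S, algebraMap ℚ K' (q i) ^
            (Nat.card {j // f j = some (⟨i, x⟩ : Σ i, (P i).rootSet S)})) ≠ 0 :=
          Finset.prod_ne_zero_iff.2 fun i _ => Finset.prod_ne_zero_iff.2 fun x _ =>
            pow_ne_zero _ (hqK i)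
        rw [← h8, div_pow, div_eq_one_iff_eq (pow_ne_zero _ h9)] at h4
        exact h4)
    intro y
    exact h7 y.1 y.2
  obtain ⟨σ, hσ, hσ1, hσ2⟩ := exists_matching (bar := bar')
    (fun y => by
      change (⟨y.1, bar y.1 (bar y.1 y.2)⟩ : Σ i, (P i).rootSet S) = y
      rw [hbar])
    (fun y h => by
      have h3 : (⟨y.1, bar y.1 y.2⟩ : Σ i, (P i).rootSet S) = ⟨y.1, y.2⟩ := h
      rw [Sigma.mk.injEq] at h3
      exact hfix y.1 y.2 (eq_of_heq h3.2)) f hcount
  have haσ : ∀ j, a (σ j) = a j := by
    intro j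
    rcases hfj : f j with _ | y
    · rw [hσ1 j hfj]
    · rw [← (hf1 j y hfj).1, ← (hf1 (σ j) (bar' y) (hσ2 j y hfj)).1]
  refine balanced_product_mem a F M hM l.1 (μ l) (hμ2 l) σ hσ haσ ?_ ?_
  · intro j hj
    rw [hratK]
    apply hf2
    by_contra hne
    obtain ⟨y, hy⟩ := Option.ne_none_iff_exists'.1 hne
    have h3 := hσ2 j y hy
    rw [hj, hy] at h3
    have h4 : (⟨y.1, y.2⟩ : Σ i, (P i).rootSet S) = ⟨y.1, bar y.1 y.2⟩ := Option.some.inj h3
    rw [Sigma.mk.injEq] at h4
    exact hfix y.1 y.2 (eq_of_heq h4.2).symm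
  · intro j hj
    rcases hfj : f j with _ | y
    · exact absurd (hσ1 j hfj) hj
    · obtain ⟨h3, h4⟩ := hf1 j y hfj
      obtain ⟨_, h6⟩ := hf1 (σ j) (bar' y) (hσ2 j y hfj)
      rw [← h4, ← h6, ← map_mul, hmul, hratK, ← h3, AlgHom.commutes]

end main

end Pool.Agent.Lib.MP_021685_ag.PF
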